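import Pool.Agent.Helper37.KD.DefsC
import Pool.Agent.Helper37.KD.St.A2
import Pool.Agent.Helper37.KD.St.D1
import Pool.Agent.Helper37.KD.St.D2
import Pool.Agent.Helper37.KD.St.D5
import Pool.Agent.Helper37.KD.St.D6

/-! KD Part I, piece D7 -/

namespace KD
namespace I.D7

open Finset

theorem n1_nonneg {d N : ℕ} (x : V d N) : 0 ≤ n1 x :=
  Finset.sum_nonneg (fun _ _ => Nat.cast_nonneg _)

theorem he_nonneg {G : Type*} [Fintype G] [AddCommGroup G] (u : G → ℝ) (w : G) : 0 ≤ he u w :=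
  Finset.sum_nonneg (fun _ _ => sq_nonneg _)

theorem he_zero {G : Type*} [Fintype G] [AddCommGroup G] (u : G → ℝ) : he u 0 = 0 := by
  simp [he]

theorem he_add_le2 {G : Type*} [Fintype G] [AddCommGroup G] (u : G → ℝ) (w w' : G) :
    he u (w + w') ≤ 2 * he u w + 2 * he u w' := by
  have h := he_add_le u w w'
  have h0 := he_nonneg u (w + w')
  have h1 := he_nonneg u w
  have h2 := he_nonneg u w'
  have e0 := Real.sq_sqrt h0
  have e1 := Real.sq_sqrt h1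
  have e2 := Real.sq_sqrt h2
  have n0 := Real.sqrt_nonneg (he u (w + w'))
  have n1 := Real.sqrt_nonneg (he u w)
  have n2 := Real.sqrt_nonneg (he u w')
  nlinarith [sq_nonneg (√(he u w) - √(he u w')), mul_self_nonneg (√(he u w) - √(he u w')),
    mul_le_mul h h n0 (add_nonneg n1 n2)]

/-- comparison of the norms at scales `k` and `k+1` -/
theorem nm_le {d : ℕ} {s c0 C0 C1 : ℝ} (hs1 : s < 1) (E : Env d s c0 C0 C1) (k : ℕ) (w : E.G) :
    E.nm k w ≤ 8 * E.nm (k + 1) w := by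
  have hR := E.R_pos k
  have hR1 := E.R_pos (k + 1)
  have a1 := n1_nonneg w.1
  have a2 := n1_nonneg w.2
  have htim : tim s (k + 1) ≤ 4 * tim s k := by
    rw [tim_add]
    have h1 : tim s 1 ≤ 4 := by
      have : tim s 1 = (2 : ℝ) ^ (2 * s) := by simp [tim]
      rw [this]
      calc (2 : ℝ) ^ (2 * s) ≤ (2 : ℝ) ^ (2 : ℝ) :=
            Real.rpow_le_rpow_of_exponent_le one_le_two (by linarith)
        _ = 4 := by norm_num
    nlinarith [tim_pos s k]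
  have hRR : E.R (k + 1) ≤ 8 * E.R k := by
    unfold Env.R Rad
    have hM := E.hM
    have hε := E.hε
    have e1 : E.M / E.ε * 2 ^ (k + 1) * tim s (k + 1) = (E.M / E.ε * 2 ^ k) * (2 * tim s (k + 1)) := by
      ring
    have e2 : 8 * (E.M / E.ε * 2 ^ k * tim s k) = (E.M / E.ε * 2 ^ k) * (8 * tim s k) := by ring
    rw [e1, e2]
    apply mul_le_mul_of_nonneg_left _ (by positivity)
    linarith
  have h1 : n1 w.1 / E.R k ≤ 8 * (n1 w.1 / E.R (k + 1)) := by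
    rw [div_le_iff₀ hR]
    have : 8 * (n1 w.1 / E.R (k + 1)) * E.R k = n1 w.1 * ((8 * E.R k) / E.R (k + 1)) := by ring
    rw [this]
    have h2 : 1 ≤ (8 * E.R k) / E.R (k + 1) := by
      rw [le_div_iff₀ hR1]; linarith
    nlinarith
  have h2 : n1 w.2 / 2 ^ k ≤ 8 * (n1 w.2 / 2 ^ (k + 1)) := by
    have : 8 * (n1 w.2 / 2 ^ (k + 1)) = 4 * (n1 w.2 / 2 ^ k) := by
      rw [pow_succ]; field_simp; ring
    rw [this]
    have : 0 ≤ n1 w.2 / 2 ^ k := by positivity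
    linarith
  unfold Env.nm nrm
  linarith

/-- I.7: entropy increment -/
theorem entropy_incr (s c0 C0 C1 : ℝ) (d : ℕ) (hd : 1 ≤ d) (hs : 0 < s) (hs1 : s < 1) (hc0 : 0 < c0) :
    ∃ C : ℝ, 0 < C ∧ ∀ (E : Env d s c0 C0 C1) (μ : E.G → ℝ), IsP μ → ∀ k, k + 1 ≤ E.K →
      Ht (lev E.q μ (k + 1)) - Ht (lev E.q μ (k + 2)) ≤
        C * (tim s k * E.Ik μ k + E.Xk μ k + E.ε ^ 2) := by
  obtain ⟨Cv, hCv, Hv⟩ := he_vs_le s c0 C0 C1 d hd hs hs1 hc0
  obtain ⟨Cx, hCx, Hx⟩ := he_xs_le s c0 C0 C1 d hs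
  obtain ⟨Cm, hCm, Hm⟩ := ker_moment d C1 3
  refine ⟨4 * (512 * Cm * (2 * Cv + 2 * Cx + 2 * Cx)), by positivity, ?_⟩
  intro E μ hμ k hk
  have hI : 0 ≤ tim s k * E.Ik μ k := by
    have h := Hv E (lev E.q μ (k + 1)) (E.u_pos hμ (by omega)) k (by omega) 0
    have h0 : (vs (0 : V d E.N) : GG d E.N) = 0 := rfl
    rw [h0, he_zero] at h
    have h1 : n1 (0 : V d E.N) = 0 := by simp [n1]
    rw [h1] at h
    have h2 : 0 ≤ Cv * (tim s k * E.Ik μ k) := by
      unfold Env.Ik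
      calc (0 : ℝ) ≤ _ := h
        _ = _ := by simp; ring
    by_contra hneg
    push Not at hneg
    nlinarith
  have hX : 0 ≤ E.Xk μ k :=
    Finset.sum_nonneg (fun w _ => mul_nonneg (E.q_pos (by omega) w).le (he_nonneg _ _))
  have hR : 1 / E.R k ^ 2 ≤ E.ε ^ 2 := by
    have hRp := E.R_pos k
    have h1 : 1 / E.R k ≤ E.ε := by
      rw [div_le_iff₀ hRp]
      unfold Env.R Rad
      have hM := E.hM
      have hε := E.hε
      have ht := one_le_tim hs k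
      have h2 : (1 : ℝ) ≤ 2 ^ k := one_le_pow₀ one_le_two
      have : E.ε * (E.M / E.ε * 2 ^ k * tim s k) = E.M * 2 ^ k * tim s k := by
        field_simp
      rw [this]
      have h3 : 1 ≤ E.M * 2 ^ k := one_le_mul_of_one_le_of_one_le hM h2
      exact one_le_mul_of_one_le_of_one_le h3 ht
    calc 1 / E.R k ^ 2 = (1 / E.R k) ^ 2 := by rw [div_pow, one_pow]
      _ ≤ E.ε ^ 2 := pow_le_pow_left₀ (by positivity) h1 2
  have hmain := entropy_incr_he E hμ hk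
  refine hmain.trans ?_
  rw [mul_assoc]
  apply mul_le_mul_of_nonneg_left _ (by norm_num)
  -- pointwise bound
  have key : ∀ w : E.G, E.q (k + 1) w * (1 + E.nm k w) * he (lev E.q μ (k + 1)) w ≤
      (E.q (k + 1) w * (1 + E.nm (k + 1) w) ^ 3) *
        (512 * ((2 * Cv + 2 * Cx + 2 * Cx) * (tim s k * E.Ik μ k + E.Xk μ k + E.ε ^ 2))) := by
    intro w
    have hq := (E.q_pos (k := k + 1) hk w).le
    have a1 := n1_nonneg w.1
    have a2 := n1_nonneg w.2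
    have hRp := E.R_pos k
    have hx0 : 0 ≤ n1 w.1 / E.R k := by positivity
    have hv0 : 0 ≤ n1 w.2 / 2 ^ k := by positivity
    have hnm0 : 0 ≤ E.nm k w := by unfold Env.nm nrm; linarith
    have hnm1 : E.nm k w ≤ 8 * E.nm (k + 1) w := nm_le hs1 E k w
    have hw : w = xs w.1 + vs w.2 := by
      ext <;> simp [xs, vs]
    have hhe : he (lev E.q μ (k + 1)) w ≤
        (1 + E.nm k w) ^ 2 * ((2 * Cv + 2 * Cx + 2 * Cx) * (tim s k * E.Ik μ k + E.Xk μ k + E.ε ^ 2)) := by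
      have h1 := Hv E (lev E.q μ (k + 1)) (E.u_pos hμ (by omega)) k (by omega) w.2
      have h2 := Hx E μ hμ k (by omega) w.1
      have h3 := he_add_le2 (lev E.q μ (k + 1)) (xs w.1) (vs w.2)
      rw [← hw] at h3
      have h4 : (1 + n1 w.2 / 2 ^ k) ^ 2 ≤ (1 + E.nm k w) ^ 2 := by
        apply pow_le_pow_left₀ (by positivity)
        unfold Env.nm nrm; linarith
      have h5 : (n1 w.1 / E.R k) ^ 2 ≤ (1 + E.nm k w) ^ 2 := by
        apply pow_le_pow_left₀ hx0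
        unfold Env.nm nrm; linarith
      have h6 : 1 ≤ (1 + E.nm k w) ^ 2 := by nlinarith
      set P := (1 + E.nm k w) ^ 2 with hP
      have hP0 : 0 ≤ P := by positivity
      have h7 : Cv * (1 + n1 w.2 / 2 ^ k) ^ 2 * tim s k * E.S.If s (lev E.q μ (k + 1))
          = Cv * ((1 + n1 w.2 / 2 ^ k) ^ 2 * (tim s k * E.Ik μ k)) := by
        unfold Env.Ik; ring
      rw [h7] at h1
      have h8 : (1 + n1 w.2 / 2 ^ k) ^ 2 * (tim s k * E.Ik μ k) ≤ P * (tim s k * E.Ik μ k) :=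
        mul_le_mul_of_nonneg_right h4 hI
      have h9 : (n1 w.1 / E.R k) ^ 2 * E.Xk μ k ≤ P * E.Xk μ k :=
        mul_le_mul_of_nonneg_right h5 hX
      have h10 : Cx / E.R k ^ 2 ≤ Cx * (P * E.ε ^ 2) := by
        have : Cx / E.R k ^ 2 = Cx * (1 / E.R k ^ 2) := by ring
        rw [this]
        apply mul_le_mul_of_nonneg_left _ hCx.le
        calc 1 / E.R k ^ 2 ≤ E.ε ^ 2 := hR
          _ ≤ P * E.ε ^ 2 := by nlinarith [sq_nonneg E.ε]
      have h11 : Cx * (n1 w.1 / E.R k) ^ 2 * E.Xk μ k ≤ Cx * (P * E.Xk μ k) := by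
        rw [mul_assoc]; exact mul_le_mul_of_nonneg_left h9 hCx.le
      have h12 := mul_le_mul_of_nonneg_left h8 hCv.le
      have hTI : 0 ≤ P * (tim s k * E.Ik μ k) := mul_nonneg hP0 hI
      have hPX : 0 ≤ P * E.Xk μ k := mul_nonneg hP0 hX
      have hPe : 0 ≤ P * E.ε ^ 2 := by positivity
      have e : P * ((2 * Cv + 2 * Cx + 2 * Cx) * (tim s k * E.Ik μ k + E.Xk μ k + E.ε ^ 2))
          = (2 * Cv + 2 * Cx + 2 * Cx) * (P * (tim s k * E.Ik μ k) + P * E.Xk μ k + P * E.ε ^ 2) := by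
        ring
      rw [e]
      nlinarith [mul_nonneg hCv.le hTI, mul_nonneg hCv.le hPX, mul_nonneg hCv.le hPe,
        mul_nonneg hCx.le hTI, mul_nonneg hCx.le hPX, mul_nonneg hCx.le hPe]
    have hT0 : 0 ≤ (2 * Cv + 2 * Cx + 2 * Cx) * (tim s k * E.Ik μ k + E.Xk μ k + E.ε ^ 2) := by
      have : 0 ≤ tim s k * E.Ik μ k + E.Xk μ k + E.ε ^ 2 := by positivity
      positivity
    set T := (2 * Cv + 2 * Cx + 2 * Cx) * (tim s k * E.Ik μ k + E.Xk μ k + E.ε ^ 2) with hT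
    have hcube : (1 + E.nm k w) ^ 3 ≤ 512 * (1 + E.nm (k + 1) w) ^ 3 := by
      have : (512 : ℝ) * (1 + E.nm (k + 1) w) ^ 3 = (8 * (1 + E.nm (k + 1) w)) ^ 3 := by ring
      rw [this]
      apply pow_le_pow_left₀ (by positivity)
      linarith
    calc E.q (k + 1) w * (1 + E.nm k w) * he (lev E.q μ (k + 1)) w
        ≤ E.q (k + 1) w * (1 + E.nm k w) * ((1 + E.nm k w) ^ 2 * T) :=
          mul_le_mul_of_nonneg_left hhe (by positivity)
      _ = E.q (k + 1) w * T * (1 + E.nm k w) ^ 3 := by ring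
      _ ≤ E.q (k + 1) w * T * (512 * (1 + E.nm (k + 1) w) ^ 3) :=
          mul_le_mul_of_nonneg_left hcube (by positivity)
      _ = _ := by ring
  have hsum : ∑ w, E.q (k + 1) w * (1 + E.nm k w) * he (lev E.q μ (k + 1)) w ≤
      (∑ w, E.q (k + 1) w * (1 + E.nm (k + 1) w) ^ 3) *
        (512 * ((2 * Cv + 2 * Cx + 2 * Cx) * (tim s k * E.Ik μ k + E.Xk μ k + E.ε ^ 2))) := by
    rw [Finset.sum_mul]
    exact Finset.sum_le_sum (fun w _ => key w)
  have hmom : ∑ w, E.q (k + 1) w * (1 + E.nm (k + 1) w) ^ 3 ≤ Cm :=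
    Hm E.N (2 ^ (k + 1)) (Rad s E.M E.ε (k + 1)) (E.q (k + 1)) (by positivity) (E.R_pos (k + 1))
      (E.ker (k + 1) hk)
  have hT0 : 0 ≤ 512 * ((2 * Cv + 2 * Cx + 2 * Cx) * (tim s k * E.Ik μ k + E.Xk μ k + E.ε ^ 2)) := by
    have : 0 ≤ tim s k * E.Ik μ k + E.Xk μ k + E.ε ^ 2 := by positivity
    positivity
  calc _ ≤ _ := hsum
    _ ≤ Cm * (512 * ((2 * Cv + 2 * Cx + 2 * Cx) * (tim s k * E.Ik μ k + E.Xk μ k + E.ε ^ 2))) :=
        mul_le_mul_of_nonneg_right hmom hT0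
    _ = _ := by ring

end I.D7
end KD
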